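import Pool.Agent.Helper34.EC.Defs

/-!
# Project EC, module EC-C3: lifting by recursive Hermite interpolation
-/

set_option autoImplicit false

namespace Pool.Agent.Helper45.EC

open Polynomial TensorProduct

open Pool.Agent.Helper34.EC

noncomputable section

variable {k : Type} [Field k] {g : ℕ}

theorem TT_X_sub_C_self (a : k) : TT a (X - C a) = PowerSeries.X := by
  rw [TT_X_sub_C]; simp

theorem TT_taylor_neg (a : k) (P : k[X]) : TT a (taylor (-a) P) = (P : PowerSeries k) := by
  change ((taylor a (taylor (-a) P) : k[X]) : PowerSeries k) = _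
  rw [taylor_taylor]
  simp

/-- Hermite interpolation at the `2 g` points. -/
theorem hermite (c : Fin g × Bool → k) (hc : Function.Injective c) (n : ℕ)
    (H : Fin g × Bool → PowerSeries k) :
    ∃ Q : k[X], (Q = 0 ∨ Q.natDegree < 2 * g * (n + 1)) ∧
      ∀ e, ∀ a ≤ n, PowerSeries.coeff a (TT (c e) Q) = PowerSeries.coeff a (H e) := by
  classical
  obtain ⟨Q0, hQ0⟩ := Ideal.exists_forall_sub_mem_ideal
    (I := fun e => Ideal.span {(X - C (c e)) ^ (n + 1)})
    (fun e e' he => by
      change IsCoprime (Ideal.span {(X - C (c e)) ^ (n + 1)})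
        (Ideal.span {(X - C (c e')) ^ (n + 1)})
      rw [Ideal.isCoprime_span_singleton_iff]
      exact (pairwise_coprime_X_sub_C hc he).pow)
    (fun e => taylor (-(c e)) (PowerSeries.trunc (n + 1) (H e)))
  set D : k[X] := ∏ e, (X - C (c e)) ^ (n + 1) with hD
  have hDm : D.Monic := monic_prod_of_monic _ _ (fun e _ => (monic_X_sub_C (c e)).pow _)
  have hDd : D.natDegree = 2 * g * (n + 1) := by
    rw [hD, natDegree_prod_of_monic _ _ (fun e _ => (monic_X_sub_C (c e)).pow _)]
    simp [Fintype.card_prod]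
    ring
  refine ⟨Q0 %ₘ D, ?_, ?_⟩
  · by_cases h1 : Q0 %ₘ D = 0
    · exact Or.inl h1
    · right
      rw [← hDd]
      exact natDegree_lt_natDegree h1 (degree_modByMonic_lt Q0 hDm)
  · intro e a ha
    obtain ⟨S, hS⟩ := Ideal.mem_span_singleton.mp (hQ0 e)
    have hdvd : (X - C (c e)) ^ (n + 1) ∣ D := Finset.dvd_prod_of_mem _ (Finset.mem_univ e)
    obtain ⟨E, hE⟩ := hdvd
    have h2 : Q0 %ₘ D = taylor (-(c e)) (PowerSeries.trunc (n + 1) (H e)) +
        (X - C (c e)) ^ (n + 1) * (S - E * (Q0 /ₘ D)) := by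
      have h3 := modByMonic_add_div Q0 D
      have h5 : Q0 = taylor (-(c e)) (PowerSeries.trunc (n + 1) (H e)) +
        (X - C (c e)) ^ (n + 1) * S := by rw [← hS]; ring
      linear_combination h3 + h5 - (Q0 /ₘ D) * hE
    rw [h2, map_add, map_mul, map_pow, TT_X_sub_C_self, TT_taylor_neg, map_add,
      Polynomial.coeff_coe, PowerSeries.coeff_trunc, if_pos (by omega),
      PowerSeries.coeff_X_pow_mul', if_neg (by omega), add_zero]

theorem coeff_mul_congr (u A B : PowerSeries k) (n : ℕ)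
    (h : ∀ a ≤ n, PowerSeries.coeff a A = PowerSeries.coeff a B) :
    ∀ a ≤ n, PowerSeries.coeff a (u * A) = PowerSeries.coeff a (u * B) := by
  intro a ha
  rw [PowerSeries.coeff_mul, PowerSeries.coeff_mul]
  apply Finset.sum_congr rfl
  intro p hp
  have h5 : p.1 + p.2 = a := Finset.HasAntidiagonal.mem_antidiagonal.mp hp
  rw [h p.2 (by omega)]

/-- The targets. -/
def tgt (c : Fin g × Bool → k) (n : ℕ) (prev : ℕ → k[X]) (e : Fin g × Bool) : PowerSeries k :=
  PowerSeries.mk fun a => if a < n then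
    PowerSeries.coeff n (uu c (e.1, !e.2) ^ a * TT (c (e.1, !e.2)) (prev a)) else 0

theorem step (c : Fin g × Bool → k) (hc : Function.Injective c) (M : ℕ)
    (hM : 2 * g ≤ M + 1) (n : ℕ) (prev : ℕ → k[X]) :
    ∃ Q : k[X], Q.natDegree ≤ M + 2 * g * n ∧ ∀ e, ∀ a ≤ n,
      PowerSeries.coeff a (uu c e ^ n * TT (c e) Q) = PowerSeries.coeff a (tgt c n prev e) := by
  obtain ⟨Q, h1, h2⟩ := hermite c hc n (fun e => TT (c e) (De c e) ^ n * tgt c n prev e)
  refine ⟨Q, ?_, ?_⟩
  · rcases h1 with h1 | h1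
    · rw [h1]; simp
    · have : 2 * g * (n + 1) = 2 * g * n + 2 * g := by ring
      omega
  · intro e a ha
    rw [coeff_mul_congr (uu c e ^ n) _ _ n (h2 e) a ha, ← mul_assoc, ← mul_pow,
      mul_comm (uu c e), TT_De_mul_uu c hc, one_pow, one_mul]

/-- The recursion. -/
def seq (F : ℕ → (ℕ → k[X]) → k[X]) (P : k[X]) : ℕ → ℕ → k[X]
  | 0 => fun _ => P
  | n + 1 => Function.update (seq F P n) (n + 1) (F (n + 1) (seq F P n))

theorem seq_stable (F : ℕ → (ℕ → k[X]) → k[X]) (P : k[X]) (m j : ℕ) (h : j ≤ m) :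
    seq F P m j = seq F P j j := by
  induction m with
  | zero =>
    have : j = 0 := by omega
    subst this; rfl
  | succ m ih =>
    by_cases h1 : j = m + 1
    · subst h1; rfl
    · rw [seq, Function.update_of_ne h1]
      exact ih (by omega)

theorem tgt_congr (c : Fin g × Bool → k) (n : ℕ) (p q : ℕ → k[X]) (h : ∀ a < n, p a = q a)
    (e : Fin g × Bool) : tgt c n p e = tgt c n q e := by
  unfold tgt
  congr 1
  funext a
  by_cases h1 : a < n
  · rw [if_pos h1, if_pos h1, h a h1]
  · rw [if_neg h1, if_neg h1]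

/-- EC-C3 -/
theorem exists_lift (c : Fin g × Bool → k) (hc : Function.Injective c) (M : ℕ)
    (hM : 2 * g ≤ M + 1) (P : k[X]) (hP : P.natDegree ≤ M)
    (hg : ∀ i, P.eval (c (i, false)) = P.eval (c (i, true))) :
    ∃ f ∈ AA c, Bd g M f ∧ PowerSeries.coeff 0 f = P := by
  classical
  choose F hF1 hF2 using fun n prev => step c hc M hM n prev
  set S : ℕ → k[X] := fun n => seq F P n n with hS
  have hS0 : S 0 = P := rfl
  have hSs : ∀ n, S (n + 1) = F (n + 1) (seq F P n) := by
    intro n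
    change seq F P (n + 1) (n + 1) = _
    rw [seq, Function.update_self]
  have hSt : ∀ n e, ∀ a ≤ n + 1,
      PowerSeries.coeff a (uu c e ^ (n + 1) * TT (c e) (S (n + 1))) =
        PowerSeries.coeff a (tgt c (n + 1) S e) := by
    intro n e a ha
    rw [hSs, hF2 (n + 1) (seq F P n) e a ha]
    rw [tgt_congr c (n + 1) (seq F P n) S (fun b hb => seq_stable F P n b (by omega)) e]
  have hB : Bd g M (PowerSeries.mk S) := by
    intro n
    rw [PowerSeries.coeff_mk]
    cases n with
    | zero => rw [hS0]; simpa using hP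
    | succ n => rw [hSs]; exact hF1 _ _
  refine ⟨PowerSeries.mk S, ⟨?_, M, hB⟩, hB, by rw [PowerSeries.coeff_mk, hS0]⟩
  intro i
  ext a b
  rw [coeff_swap, coeff_EE, coeff_EE, PowerSeries.coeff_mk, PowerSeries.coeff_mk]
  -- coeff a (u_p ^ b * TT_p (S b)) = coeff b (u_q ^ a * TT_q (S a))
  rcases lt_trichotomy a b with hab | hab | hab
  · obtain ⟨b', rfl⟩ : ∃ b', b = b' + 1 := ⟨b - 1, by omega⟩
    rw [hSt b' (i, false) a (by omega)]
    simp only [tgt, PowerSeries.coeff_mk, if_pos hab, Bool.not_false]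
  · subst hab
    cases a with
    | zero =>
      rw [pow_zero, pow_zero, one_mul, one_mul, hS0, PowerSeries.coeff_zero_eq_constantCoeff_apply,
        PowerSeries.coeff_zero_eq_constantCoeff_apply, constantCoeff_TT, constantCoeff_TT, hg i]
    | succ a =>
      rw [hSt a (i, false) (a + 1) le_rfl, hSt a (i, true) (a + 1) le_rfl]
      simp only [tgt, PowerSeries.coeff_mk, lt_irrefl, if_false]
  · obtain ⟨a', rfl⟩ : ∃ a', a = a' + 1 := ⟨a - 1, by omega⟩
    rw [hSt a' (i, true) b (by omega)]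
    simp only [tgt, PowerSeries.coeff_mk, if_pos hab, Bool.not_true]

end

end Pool.Agent.Helper45.EC
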